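import Pool.Agent.Helper45.LGB.Main

set_option autoImplicit false

/-!
# The nilpotency class of finite groups of prime exponent is a local invariant

Let `p` be a prime and `R = 2 ^ (2 ^ (p + 1))`. Let `G` be a finite group of exponent dividing `p`
and `X` any generating set of `G`. Consider the graph with the set of vertices `X` in which `x` and
`y` are adjacent if their commutator is not in `γ_3(G)` (in other words, if the images of `x` and
`y` in the largest quotient `G / γ_3(G)` of class at most `2` do not commute; this graph is a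
subgraph of the non-commuting graph of `X`). Then `G` has class at most `c` if and only if for
every `x` in `X` the subgroup generated by the ball of radius `R` around `x` has class at most `c`.

In particular, if every vertex has at most `Δ` neighbours, then the class of `G` is at most the
class `c((Δ + 1) ^ R, p)` of the largest finite group of exponent `p` with `(Δ + 1) ^ R`
generators, independently of the number of elements of `X`.

`(⊤ : Subgroup G).lowerCentralSeries c` is `γ_{c+1}(G)`, and `⁅x, y⁆` is the commutator.

(The version for infinite, locally finite groups of exponent `p`, with the non-commuting graph of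
`X`, is the theorem `main` in the file `Pool/Agent/Helper45/LGB/Main.lean`.)
-/

namespace Pool.Agent.Results.MP_97dcad_al.LocalClass

open scoped commutatorElement

/-- The ball of radius `n` around `x` in the graph on `X` in which `z` and `y` are adjacent if
`⁅z, y⁆` is not in `γ_3(G)`: the elements which can be reached from `x` by at most `n` steps, each
from an element `z` to an element `y` of `X` with `⁅z, y⁆ ∉ γ_3(G)`. -/
def Ball {G : Type} [Group G] (X : Set G) (x : G) : ℕ → Set G
  | 0 => {x}
  | n + 1 => {y | ∃ z ∈ Ball X x n, z = y ∨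
      (y ∈ X ∧ ⁅z, y⁆ ∉ (⊤ : Subgroup G).lowerCentralSeries 2)}

theorem ball_eq {G : Type} [Group G] (X : Set G) (x : G) (n : ℕ) :
    Ball X x n = Pool.Agent.Helper45.LGB.Ball3 X x n := by
  induction n with
  | zero => rfl
  | succ n ih =>
    ext y
    simp only [Ball, Pool.Agent.Helper45.LGB.Ball3, ih]

theorem result (p : ℕ) (hp : p.Prime) (G : Type) [Group G] [Finite G] (hG : ∀ g : G, g ^ p = 1)
    (X : Set G) (hX : Subgroup.closure X = ⊤) (c : ℕ) :
    ((⊤ : Subgroup G).lowerCentralSeries c = ⊥ ↔
      ∀ x ∈ X, (Subgroup.closure (Ball X x (2 ^ (2 ^ (p + 1))))).lowerCentralSeries c = ⊥) ∧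
    (∀ Δ : ℕ,
      (∀ x ∈ X, {y | y ∈ X ∧ ⁅x, y⁆ ∉ (⊤ : Subgroup G).lowerCentralSeries 2}.ncard ≤ Δ) →
      (∀ (H : Type) [Group H] [Finite H], (∀ h : H, h ^ p = 1) →
        (∃ f : Fin ((Δ + 1) ^ (2 ^ (2 ^ (p + 1)))) → H, Subgroup.closure (Set.range f) = ⊤) →
        (⊤ : Subgroup H).lowerCentralSeries c = ⊥) →
      (⊤ : Subgroup G).lowerCentralSeries c = ⊥) := by
  have : Fact p.Prime := ⟨hp⟩
  have hnil : Group.IsNilpotent G := by
    have h1 : IsPGroup p G := fun g => ⟨1, by rw [pow_one]; exact hG g⟩
    exact h1.isNilpotent
  have hmain : (∀ x ∈ X, (Subgroup.closure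
      (Ball X x (2 ^ (2 ^ (p + 1))))).lowerCentralSeries c = ⊥) →
      (⊤ : Subgroup G).lowerCentralSeries c = ⊥ := by
    intro h
    refine Pool.Agent.Helper45.LGB.main3 p G hG X hX
      (Subgroup.nilpotent_iff_lowerCentralSeries.1 hnil) c ?_
    intro x hx
    rw [← ball_eq]
    exact h x hx
  refine ⟨⟨fun h x _ => ?_, hmain⟩, fun Δ hΔ hH => hmain ?_⟩
  · refine le_bot_iff.1 (le_trans ?_ h.le)
    generalize Subgroup.closure (Ball X x (2 ^ (2 ^ (p + 1)))) = K
    clear h hmain
    induction c with
    | zero => exact le_top
    | succ n ih => exact Subgroup.commutator_mono ih le_top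
  · intro x hx
    rw [ball_eq]
    exact Pool.Agent.Helper45.LGB.bdg3 p _ Δ c hH G hG X hΔ x hx

end Pool.Agent.Results.MP_97dcad_al.LocalClass
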