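import Pool.Agent.Helper83.RB.Main

set_option autoImplicit false

/-!
# Abelian normal subgroups with a multilinear relation in groups of exponent `p`

For arbitrary finite `m`-generator groups `G` of exponent dividing `p`: if the conjugation action of `G` on an
abelian normal subgroup `V` satisfies a multilinear relation of degree `d`, then the class of `G` is at most
`k + C (m + 1)` whenever `γ_{k+1}(G) ≤ V`; `C` depends on `p` and `d` only.
-/

namespace Pool.Agent.Results.MP_97dcad_al.MultilinearAction

open scoped BigOperators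

/-- The conjugation action of `G` on the abelian normal subgroup `V` satisfies a multilinear
relation of degree `d` modulo `p`: there are natural numbers `a_σ`, not all divisible by `p`, with
`∏_σ (x_σ v x_σ⁻¹) ^ a_σ = 1`, `x_σ = g_{σ 0} ⋯ g_{σ (d-1)}`, for all `g_i` in `G` and `v` in `V`
(the order of the factors is irrelevant because `V` is abelian). -/
def ActsMultilinearly (p d : ℕ) {G : Type} [Group G] (V : Subgroup G) : Prop :=
  ∃ a : Equiv.Perm (Fin d) → ℕ, (∃ σ, ¬ p ∣ a σ) ∧ ∀ g : Fin d → G, ∀ v ∈ V,
    ((Finset.univ : Finset (Equiv.Perm (Fin d))).toList.map fun σ =>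
      ((List.ofFn fun i => g (σ i)).prod * v * ((List.ofFn fun i => g (σ i)).prod)⁻¹) ^
        a σ).prod = 1

/-- If the lower central series reaches the bottom after `n` steps, the upper central series
reaches the top after `n` steps. -/
theorem upper_of_lower {G : Type} [Group G] {n : ℕ}
    (h : (⊤ : Subgroup G).lowerCentralSeries n = ⊥) : Subgroup.upperCentralSeries G n = ⊤ := by
  have : Group.IsNilpotent G := Subgroup.nilpotent_iff_lowerCentralSeries.2 ⟨n, h⟩
  exact Subgroup.upperCentralSeries_eq_top_iff_nilpotencyClass_le.2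
    (Subgroup.lowerCentralSeries_eq_bot_iff_nilpotencyClass_le.1 h)

theorem result (p : ℕ) (hp : p.Prime) (d : ℕ) :
    ∃ C : ℕ, ∀ (m : ℕ) (G : Type) [Group G] [Finite G],
      (∀ g : G, g ^ p = 1) →
      (∃ f : Fin m → G, Subgroup.closure (Set.range f) = ⊤) →
      ∀ (V : Subgroup G) [V.Normal], (∀ x ∈ V, ∀ y ∈ V, x * y = y * x) →
      ActsMultilinearly p d V → ∀ k : ℕ, (⊤ : Subgroup G).lowerCentralSeries k ≤ V →
        ∃ n : ℕ, n ≤ k + C * (m + 1) ∧ Subgroup.upperCentralSeries G n = ⊤ := by
  have : Fact p.Prime := ⟨hp⟩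
  obtain ⟨C, h⟩ := Pool.Agent.Helper83.RB.bot p d
  refine ⟨C, ?_⟩
  intro m G _ _ hexp hgen V _ hV hact k hk
  obtain ⟨a, ha, hrel⟩ := hact
  exact ⟨k + C * (m + 1), le_rfl, upper_of_lower (h m G hexp hgen V hV a ha hrel k hk)⟩

end Pool.Agent.Results.MP_97dcad_al.MultilinearAction
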