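import Pool.Agent.Helper82.OG.Main

set_option autoImplicit false

/-!
# A gap theorem for the orders of finite groups of exponent `p`

`W` is any set of group laws and `p` any prime. Consider the finite groups of exponent dividing `p`
which satisfy the laws in `W`. Either for every `m` there is such a group which is generated by
`m + 1` elements and has order at least `p ^ (m!)`; or there is a constant `C` such that every such
group `G` which is generated by `m` elements has class at most `C (m + 1)` and order at most
`p ^ (C ^ (m + 1))`. (For large `m` the two bounds on the order exclude each other.)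

For `W = ∅` the groups are the quotients of the groups `R(m, p)`: if
`|R(m + 1, p)| < p ^ (m!)` for a single `m`, then `c(m, p)` is bounded by a linear function of `m`.
-/

namespace Pool.Agent.Results.MP_97dcad_al.OrderGap

/-- The group `G` satisfies the laws in `W`: every homomorphism from the free group of countable
rank to `G` sends all elements of `W` to `1`. -/
def Satisfies (W : Set (FreeGroup ℕ)) (G : Type) [Group G] : Prop :=
  ∀ w ∈ W, ∀ φ : FreeGroup ℕ →* G, φ w = 1

/-- If the lower central series reaches the bottom after `n` steps, the upper central series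
reaches the top after `n` steps. -/
theorem upper_of_lower {G : Type} [Group G] {n : ℕ}
    (h : (⊤ : Subgroup G).lowerCentralSeries n = ⊥) : Subgroup.upperCentralSeries G n = ⊤ := by
  have : Group.IsNilpotent G := Subgroup.nilpotent_iff_lowerCentralSeries.2 ⟨n, h⟩
  exact Subgroup.upperCentralSeries_eq_top_iff_nilpotencyClass_le.2
    (Subgroup.lowerCentralSeries_eq_bot_iff_nilpotencyClass_le.1 h)

theorem result (p : ℕ) (hp : p.Prime) (W : Set (FreeGroup ℕ)) :
    (∀ m : ℕ, ∃ (G : Type) (_ : Group G) (_ : Finite G), (∀ g : G, g ^ p = 1) ∧
      Satisfies W G ∧ (∃ f : Fin (m + 1) → G, Subgroup.closure (Set.range f) = ⊤) ∧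
      p ^ m.factorial ≤ Nat.card G) ∨
    (∃ C : ℕ, ∀ (m : ℕ) (G : Type) [Group G] [Finite G], (∀ g : G, g ^ p = 1) →
      Satisfies W G → (∃ f : Fin m → G, Subgroup.closure (Set.range f) = ⊤) →
      Subgroup.upperCentralSeries G (C * (m + 1)) = ⊤ ∧ Nat.card G ≤ p ^ (C ^ (m + 1))) := by
  have : Fact p.Prime := ⟨hp⟩
  rcases Pool.Agent.Helper82.OG.main p W with h | ⟨C, h⟩
  · exact Or.inl h
  · refine Or.inr ⟨C, ?_⟩
    intro m G _ _ hexp hsat hf
    obtain ⟨h1, h2⟩ := h m G hexp hsat hf
    exact ⟨upper_of_lower h1, h2⟩

end Pool.Agent.Results.MP_97dcad_al.OrderGap
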