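import Pool.Agent.Helper83.RB.Main

set_option autoImplicit false

/-!
# Soluble-by-PI-by-soluble groups of exponent `p` have polynomially bounded class

`MultilinearRelation p d ρ`: the representation `ρ` of `N` over `𝔽_p` satisfies a non-trivial
multilinear relation of degree `d`; by linearity this says that the algebra spanned by `ρ(N)`
satisfies a multilinear polynomial identity of degree `d`.

If `G` is a finite `m`-generator group of exponent `p` with a normal subgroup `N` such that
`G/N` is soluble of derived length at most `t`, and `N` has a family of such representations whose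
common kernel is soluble of derived length at most `s`, then the class of `G` is at most
`C (m + 1) ^ D`, where `C` depends on `p, d, s, t` only and `D = 2 p^(t+1) + 2`, `D = 1` if
`t = 0` (that is, `N = G`).
-/

namespace Pool.Agent.Results.MP_97dcad_al.SolubleByPIBySoluble

open scoped BigOperators

/-- The representation `ρ` of the group `N` over `𝔽_p` satisfies a non-trivial multilinear
relation of degree `d`: there are `a_σ` in `𝔽_p`, not all zero, with
`∑_σ a_σ ρ(g_{σ 0} g_{σ 1} ⋯ g_{σ (d-1)}) = 0` for all `g_0, …, g_{d-1}` in `N`. -/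
def MultilinearRelation (p d : ℕ) {N W : Type} [Group N] [AddCommGroup W] [Module (ZMod p) W]
    (ρ : Representation (ZMod p) N W) : Prop :=
  ∃ a : Equiv.Perm (Fin d) → ZMod p, a ≠ 0 ∧
    ∀ g : Fin d → N, ∑ σ, a σ • ρ (List.ofFn fun i => g (σ i)).prod = 0

/-- If the lower central series reaches the bottom after `n` steps, the upper central series
reaches the top after `n` steps. -/
theorem upper_of_lower {G : Type} [Group G] {n : ℕ}
    (h : (⊤ : Subgroup G).lowerCentralSeries n = ⊥) : Subgroup.upperCentralSeries G n = ⊤ := by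
  have : Group.IsNilpotent G := Subgroup.nilpotent_iff_lowerCentralSeries.2 ⟨n, h⟩
  exact Subgroup.upperCentralSeries_eq_top_iff_nilpotencyClass_le.2
    (Subgroup.lowerCentralSeries_eq_bot_iff_nilpotencyClass_le.1 h)

theorem result (p : ℕ) (hp : p.Prime) (d s t : ℕ) :
    ∃ C : ℕ, ∀ (m : ℕ) (G : Type) [Group G] [Finite G],
      (∀ g : G, g ^ p = 1) →
      (∃ f : Fin m → G, Subgroup.closure (Set.range f) = ⊤) →
      ∀ (N : Subgroup G) [N.Normal], derivedSeries (G ⧸ N) t = ⊥ →
      ∀ (ι : Type) (W : ι → Type) [∀ i, AddCommGroup (W i)] [∀ i, Module (ZMod p) (W i)]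
        (ρ : ∀ i, Representation (ZMod p) N (W i)), (∀ i, MultilinearRelation p d (ρ i)) →
      derivedSeries (⨅ i, (ρ i).ker : Subgroup N) s = ⊥ →
      ∃ n : ℕ, n ≤ C * (m + 1) ^ (if t = 0 then 1 else 2 * p ^ (t + 1) + 2) ∧
        Subgroup.upperCentralSeries G n = ⊤ := by
  have : Fact p.Prime := ⟨hp⟩
  obtain ⟨C, hC⟩ := Pool.Agent.Helper83.RB.asm p d s t
  refine ⟨C, ?_⟩
  intro m G _ _ hexp hgen N _ hN ι W _ _ ρ hρ hs
  refine ⟨C * (m + 1) ^ (if t = 0 then 1 else 2 * p ^ (t + 1) + 2), le_rfl, upper_of_lower ?_⟩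
  have h := hC m G hexp hgen N hN ι W ρ hρ hs
  have e : 2 * (p ^ (t + 1) + 1) = 2 * p ^ (t + 1) + 2 := by ring
  rw [e] at h
  exact h

end Pool.Agent.Results.MP_97dcad_al.SolubleByPIBySoluble
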